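import Pool.Agent.Work.MP_49280d_co.Fu.Defs

/-!
# Upper bounds for three-sunflower-free families with pairwise intersections at most 2
-/

open Finset

namespace Pool.Agent.Work.MP_49280d_co.Fu

section mantel

variable {V : Type*} [DecidableEq V]

/-- Mantel's theorem, for ordered pairs. -/
lemma mantel (S : Finset V) (R : V → V → Prop) [DecidableRel R] (hs : ∀ a b, R a b → R b a)
    (ht : ∀ a ∈ S, ∀ b ∈ S, ∀ c ∈ S, R a b → R a c → R b c → False) :
    2 * (((S ×ˢ S).filter (fun p => R p.1 p.2)).card : ℝ) ≤ (S.card : ℝ) ^ 2 := by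
  classical
  set f : V → V → ℝ := fun a b => if R a b then 1 else 0 with hf
  have hfs : ∀ a b, f a b = f b a := by
    intro a b
    simp only [hf]
    by_cases h : R a b
    · rw [if_pos h, if_pos (hs _ _ h)]
    · rw [if_neg h, if_neg (fun h' => h (hs _ _ h'))]
  set deg : V → ℝ := fun a => ∑ b ∈ S, f a b with hdeg
  have hm : (((S ×ˢ S).filter (fun p => R p.1 p.2)).card : ℝ) = ∑ a ∈ S, deg a := by
    rw [Finset.card_filter, Nat.cast_sum, Finset.sum_product]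
    refine Finset.sum_congr rfl fun a _ => Finset.sum_congr rfl fun b _ => ?_
    simp only [hf]
    split_ifs <;> simp
  set m : ℝ := ∑ a ∈ S, deg a with hmdef
  have hedge : ∀ a ∈ S, ∀ b ∈ S, f a b * (deg a + deg b) ≤ f a b * S.card := by
    intro a ha b hb
    by_cases h : R a b
    · have h1 : f a b = 1 := by simp [hf, h]
      rw [h1, one_mul, one_mul, hdeg]
      simp only
      rw [← Finset.sum_add_distrib]
      calc ∑ c ∈ S, (f a c + f b c) ≤ ∑ c ∈ S, (1 : ℝ) := by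
            refine Finset.sum_le_sum fun c hc => ?_
            by_cases h2 : R a c
            · have h3 : ¬ R b c := fun h3 => ht a ha b hb c hc h h2 h3
              simp [hf, h2, h3]
            · simp only [hf, if_neg h2]
              split_ifs <;> norm_num
        _ = S.card := by simp
    · have h1 : f a b = 0 := by simp [hf, h]
      simp [h1]
  have hsum : ∑ a ∈ S, ∑ b ∈ S, f a b * (deg a + deg b) = 2 * ∑ a ∈ S, deg a ^ 2 := by
    have e1 : ∑ a ∈ S, ∑ b ∈ S, f a b * deg a = ∑ a ∈ S, deg a ^ 2 := by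
      refine Finset.sum_congr rfl fun a _ => ?_
      rw [← Finset.sum_mul, sq]
    have e2 : ∑ a ∈ S, ∑ b ∈ S, f a b * deg b = ∑ a ∈ S, deg a ^ 2 := by
      rw [Finset.sum_comm]
      refine Finset.sum_congr rfl fun b _ => ?_
      rw [← Finset.sum_mul, sq]
      congr 1
      exact Finset.sum_congr rfl fun a _ => hfs a b
    simp only [mul_add, Finset.sum_add_distrib]
    rw [e1, e2]; ring
  have hle : 2 * ∑ a ∈ S, deg a ^ 2 ≤ m * S.card := by
    rw [← hsum]
    calc _ ≤ ∑ a ∈ S, ∑ b ∈ S, f a b * S.card :=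
          Finset.sum_le_sum fun a ha => Finset.sum_le_sum fun b hb => hedge a ha b hb
      _ = m * S.card := by
          rw [hmdef, Finset.sum_mul]
          refine Finset.sum_congr rfl fun a _ => ?_
          rw [← Finset.sum_mul]
  have hcs : m ^ 2 ≤ S.card * ∑ a ∈ S, deg a ^ 2 := sq_sum_le_card_mul_sum_sq
  have hm0 : 0 ≤ m := by
    refine Finset.sum_nonneg fun a _ => Finset.sum_nonneg fun b _ => ?_
    simp only [hf]; split_ifs <;> norm_num
  rw [hm]
  rcases eq_or_lt_of_le hm0 with h0 | h0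
  · have hsq := sq_nonneg (S.card : ℝ)
    linarith
  · have hn : (0 : ℝ) ≤ S.card := by positivity
    have : 2 * m * m ≤ (S.card : ℝ) ^ 2 * m := by nlinarith
    exact le_of_mul_le_mul_right this h0

end mantel

section local_facts

variable {α : Type*} [DecidableEq α] {ℓ : ℕ} {F : Finset (Finset α)}

lemma Adm.subset (hF : Adm ℓ F) {G : Finset (Finset α)} (h : G ⊆ F) : Adm ℓ G :=
  ⟨fun A hA => hF.card_eq A (h hA), fun A hA B hB => hF.inter_le A (h hA) B (h hB),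
    fun A hA B hB C hC => hF.no_sf A (h hA) B (h hB) C (h hC)⟩

/-- No two points lie in three members. -/
lemma Adm.pair_le (hF : Adm ℓ F) {A B C : Finset α} (hA : A ∈ F) (hB : B ∈ F) (hC : C ∈ F)
    (hAB : A ≠ B) (hAC : A ≠ C) (hBC : B ≠ C) {x y : α} (hxy : x ≠ y)
    (hxA : x ∈ A) (hxB : x ∈ B) (hxC : x ∈ C) (hyA : y ∈ A) (hyB : y ∈ B) (hyC : y ∈ C) :
    False := by
  have key : ∀ U ∈ F, ∀ W ∈ F, U ≠ W → x ∈ U → x ∈ W → y ∈ U → y ∈ W →
      U ∩ W = {x, y} := by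
    intro U hU W hW hUW h1 h2 h3 h4
    symm
    apply Finset.eq_of_subset_of_card_le
    · intro z hz
      rcases Finset.mem_insert.1 hz with rfl | hz
      · exact Finset.mem_inter.2 ⟨h1, h2⟩
      · rw [Finset.mem_singleton.1 hz]
        exact Finset.mem_inter.2 ⟨h3, h4⟩
    · rw [Finset.card_pair hxy]
      exact hF.inter_le U hU W hW hUW
  refine hF.no_sf A hA B hB C hC hAB hAC hBC ⟨?_, ?_⟩
  · rw [key A hA B hB hAB hxA hxB hyA hyB, key A hA C hC hAC hxA hxC hyA hyC]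
  · rw [key A hA B hB hAB hxA hxB hyA hyB, key B hB C hC hBC hxB hxC hyB hyC]

lemma Adm.card_two (hF : Adm ℓ F) {A : Finset α} (hA : A ∈ F) {x : α} (hx : x ∈ A) :
    (F.filter (fun B => B ≠ A ∧ x ∈ B ∧ (A ∩ B).card = 2)).card ≤ ℓ - 1 := by
  have hsub : F.filter (fun B => B ≠ A ∧ x ∈ B ∧ (A ∩ B).card = 2) ⊆
      (A.erase x).biUnion (fun y => F.filter (fun B => B ≠ A ∧ x ∈ B ∧ y ∈ B)) := by
    intro B hB
    obtain ⟨hBF, hBA, hxB, h2⟩ := Finset.mem_filter.1 hB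
    have : ∃ y ∈ A ∩ B, y ≠ x := by
      have h1 : 1 < (A ∩ B).card := by omega
      obtain ⟨a, ha, b, hb, hab⟩ := Finset.one_lt_card.1 h1
      by_cases hax : a = x
      · exact ⟨b, hb, fun h => hab (hax.trans h.symm)⟩
      · exact ⟨a, ha, hax⟩
    obtain ⟨y, hy, hyx⟩ := this
    obtain ⟨hyA, hyB⟩ := Finset.mem_inter.1 hy
    exact Finset.mem_biUnion.2 ⟨y, Finset.mem_erase.2 ⟨hyx, hyA⟩,
      Finset.mem_filter.2 ⟨hBF, hBA, hxB, hyB⟩⟩
  calc _ ≤ ((A.erase x).biUnion (fun y => F.filter (fun B => B ≠ A ∧ x ∈ B ∧ y ∈ B))).card :=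
        Finset.card_le_card hsub
    _ ≤ ∑ y ∈ A.erase x, (F.filter (fun B => B ≠ A ∧ x ∈ B ∧ y ∈ B)).card :=
        Finset.card_biUnion_le
    _ ≤ ∑ y ∈ A.erase x, 1 := by
        refine Finset.sum_le_sum fun y hy => ?_
        obtain ⟨hyx, hyA⟩ := Finset.mem_erase.1 hy
        rw [Finset.card_le_one]
        intro B hB C hC
        obtain ⟨hBF, hBA, hxB, hyB⟩ := Finset.mem_filter.1 hB
        obtain ⟨hCF, hCA, hxC, hyC⟩ := Finset.mem_filter.1 hC
        by_contra hBC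
        exact hF.pair_le hA hBF hCF (Ne.symm hBA) (Ne.symm hCA) hBC (Ne.symm hyx)
          hx hxB hxC hyA hyB hyC
    _ = ℓ - 1 := by
        rw [Finset.sum_const, smul_eq_mul, mul_one, Finset.card_erase_of_mem hx, hF.card_eq A hA]

/-- Every point lies in at most `2ℓ` members. -/
lemma Adm.deg_le (hF : Adm ℓ F) (x : α) : (F.filter (fun B => x ∈ B)).card ≤ 2 * ℓ := by
  rcases (F.filter (fun B => x ∈ B)).eq_empty_or_nonempty with h | ⟨A, hA⟩
  · rw [h]; simp
  obtain ⟨hAF, hxA⟩ := Finset.mem_filter.1 hA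
  have hℓ : 1 ≤ ℓ := by
    rw [← hF.card_eq A hAF]
    exact Finset.card_pos.2 ⟨x, hxA⟩
  set U := F.filter (fun B => B ≠ A ∧ x ∈ B ∧ (A ∩ B).card = 2) with hU
  set W := F.filter (fun B => B ≠ A ∧ x ∈ B ∧ A ∩ B = {x}) with hW
  have hcover : F.filter (fun B => x ∈ B) ⊆ {A} ∪ (U ∪ W) := by
    intro B hB
    obtain ⟨hBF, hxB⟩ := Finset.mem_filter.1 hB
    by_cases hBA : B = A
    · rw [hBA]; simp
    · have h2 := hF.inter_le A hAF B hBF (Ne.symm hBA)
      have hxi : x ∈ A ∩ B := Finset.mem_inter.2 ⟨hxA, hxB⟩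
      have h1 : 0 < (A ∩ B).card := Finset.card_pos.2 ⟨x, hxi⟩
      apply Finset.mem_union_right
      by_cases h3 : (A ∩ B).card = 2
      · exact Finset.mem_union_left _ (Finset.mem_filter.2 ⟨hBF, hBA, hxB, h3⟩)
      · have h4 : (A ∩ B).card = 1 := by omega
        obtain ⟨z, hz⟩ := Finset.card_eq_one.1 h4
        have : x = z := by rw [hz] at hxi; exact Finset.mem_singleton.1 hxi
        exact Finset.mem_union_right _ (Finset.mem_filter.2 ⟨hBF, hBA, hxB, by rw [hz, this]⟩)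
  have hUc : U.card ≤ ℓ - 1 := hF.card_two hAF hxA
  have hWc : W.card ≤ ℓ := by
    rcases W.eq_empty_or_nonempty with h | ⟨C, hC⟩
    · rw [h]; simp
    obtain ⟨hCF, hCA, hxC, hAC⟩ := Finset.mem_filter.1 hC
    have hsub : W.erase C ⊆ F.filter (fun B => B ≠ C ∧ x ∈ B ∧ (C ∩ B).card = 2) := by
      intro B hB
      obtain ⟨hBC, hBW⟩ := Finset.mem_erase.1 hB
      obtain ⟨hBF, hBA, hxB, hAB⟩ := Finset.mem_filter.1 hBW
      refine Finset.mem_filter.2 ⟨hBF, hBC, hxB, ?_⟩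
      have h2 := hF.inter_le C hCF B hBF (Ne.symm hBC)
      have hxi : x ∈ C ∩ B := Finset.mem_inter.2 ⟨hxC, hxB⟩
      have h1 : 0 < (C ∩ B).card := Finset.card_pos.2 ⟨x, hxi⟩
      by_contra h3
      have h4 : (C ∩ B).card = 1 := by omega
      obtain ⟨z, hz⟩ := Finset.card_eq_one.1 h4
      have hxz : x = z := by rw [hz] at hxi; exact Finset.mem_singleton.1 hxi
      refine hF.no_sf A hAF C hCF B hBF (Ne.symm hCA) (Ne.symm hBA) (Ne.symm hBC) ⟨?_, ?_⟩
      · rw [hAC, hAB]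
      · rw [hAC, hz, hxz]
    have h5 := Finset.card_le_card hsub
    have h6 := hF.card_two hCF hxC
    have h7 := Finset.card_erase_of_mem hC
    have h8 : 0 < W.card := Finset.card_pos.2 ⟨C, hC⟩
    omega
  calc (F.filter (fun B => x ∈ B)).card ≤ ({A} ∪ (U ∪ W)).card := Finset.card_le_card hcover
    _ ≤ ({A} : Finset (Finset α)).card + (U ∪ W).card := Finset.card_union_le _ _
    _ ≤ 1 + (U.card + W.card) := by
        rw [Finset.card_singleton]
        exact Nat.add_le_add_left (Finset.card_union_le _ _) _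
    _ ≤ 2 * ℓ := by omega

end local_facts

section counting

variable {α : Type*} [DecidableEq α]

/-- indicator of membership -/
def ind (x : α) (A : Finset α) : ℝ := if x ∈ A then 1 else 0

/-- degree of a point -/
noncomputable def dg (F : Finset (Finset α)) (x : α) : ℝ := ∑ A ∈ F, ind x A

/-- size of the intersection -/
def mu (A B : Finset α) : ℝ := (A ∩ B).card

/-- number of members containing two points -/
noncomputable def lam (F : Finset (Finset α)) (x y : α) : ℝ := ∑ A ∈ F, ind x A * ind y A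

/-- indicator of distinctness -/
def ne1 {β : Type*} [DecidableEq β] (a b : β) : ℝ := if a = b then 0 else 1

lemma ind_sq (x : α) (A : Finset α) : ind x A * ind x A = ind x A := by
  unfold ind; split_ifs <;> norm_num

lemma ind_nonneg (x : α) (A : Finset α) : 0 ≤ ind x A := by
  unfold ind; split_ifs <;> norm_num

lemma dg_nonneg (F : Finset (Finset α)) (x : α) : 0 ≤ dg F x :=
  Finset.sum_nonneg fun A _ => ind_nonneg x A

lemma dg_eq (F : Finset (Finset α)) (x : α) :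
    dg F x = (F.filter (fun A => x ∈ A)).card := by
  rw [dg, Finset.card_filter, Nat.cast_sum]
  refine Finset.sum_congr rfl fun A _ => ?_
  unfold ind; split_ifs <;> simp

lemma sum_ind {X A : Finset α} (h : A ⊆ X) : ∑ x ∈ X, ind x A = A.card := by
  have : ∑ x ∈ X, ind x A = ∑ x ∈ X.filter (fun x => x ∈ A), (1 : ℝ) := by
    rw [Finset.sum_filter]; rfl
  rw [this]
  have e : X.filter (fun x => x ∈ A) = A := by
    ext z
    simp only [Finset.mem_filter]
    exact ⟨fun h' => h'.2, fun h' => ⟨h h', h'⟩⟩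
  rw [e]; simp

lemma ind_inter (x : α) (A B : Finset α) : ind x A * ind x B = ind x (A ∩ B) := by
  unfold ind
  by_cases h1 : x ∈ A <;> by_cases h2 : x ∈ B <;> simp [h1, h2]

lemma sum_ind_mul {X A B : Finset α} (h : A ⊆ X) :
    ∑ x ∈ X, ind x A * ind x B = mu A B := by
  simp only [ind_inter]
  rw [sum_ind (Finset.inter_subset_left.trans h)]
  rfl

variable {F : Finset (Finset α)} {X : Finset α} {ℓ : ℕ}

/-- the sum of the squares of the degrees -/
noncomputable def PP (F : Finset (Finset α)) (X : Finset α) : ℝ := ∑ x ∈ X, dg F x ^ 2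

lemma sum_dg (hX : ∀ A ∈ F, A ⊆ X) (hc : ∀ A ∈ F, A.card = ℓ) :
    ∑ x ∈ X, dg F x = F.card * ℓ := by
  unfold dg
  rw [Finset.sum_comm]
  calc ∑ A ∈ F, ∑ x ∈ X, ind x A = ∑ A ∈ F, (ℓ : ℝ) := by
        refine Finset.sum_congr rfl fun A hA => ?_
        rw [sum_ind (hX A hA), hc A hA]
    _ = F.card * ℓ := by rw [Finset.sum_const, nsmul_eq_mul]

lemma PP_eq (hX : ∀ A ∈ F, A ⊆ X) : PP F X = ∑ A ∈ F, ∑ B ∈ F, mu A B := by
  have h1 : ∀ x, dg F x ^ 2 = ∑ A ∈ F, ∑ B ∈ F, ind x A * ind x B := by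
    intro x
    rw [sq, dg, Finset.sum_mul_sum]
  unfold PP
  simp only [h1]
  rw [Finset.sum_comm]
  refine Finset.sum_congr rfl fun A hA => ?_
  rw [Finset.sum_comm]
  refine Finset.sum_congr rfl fun B hB => ?_
  exact sum_ind_mul (hX A hA)

/-- the degree sum over a set -/
noncomputable def DD (F : Finset (Finset α)) (X : Finset α) (A : Finset α) : ℝ :=
  ∑ x ∈ X, ind x A * dg F x

lemma sum_DD : ∑ A ∈ F, DD F X A = PP F X := by
  unfold DD PP
  rw [Finset.sum_comm]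
  refine Finset.sum_congr rfl fun x _ => ?_
  rw [← Finset.sum_mul, sq]; rfl

lemma sum_DD_sq : ∑ A ∈ F, DD F X A ^ 2 = ∑ x ∈ X, ∑ y ∈ X, dg F x * dg F y * lam F x y := by
  have h1 : ∀ A, DD F X A ^ 2 =
      ∑ x ∈ X, ∑ y ∈ X, dg F x * dg F y * (ind x A * ind y A) := by
    intro A
    rw [sq, DD, Finset.sum_mul_sum]
    refine Finset.sum_congr rfl fun x _ => Finset.sum_congr rfl fun y _ => ?_
    ring
  simp only [h1]
  rw [Finset.sum_comm]
  refine Finset.sum_congr rfl fun x _ => ?_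
  rw [Finset.sum_comm]
  refine Finset.sum_congr rfl fun y _ => ?_
  rw [← Finset.mul_sum]; rfl

lemma lam_self (x : α) : lam F x x = dg F x := by
  unfold lam dg
  exact Finset.sum_congr rfl fun A _ => ind_sq x A

lemma split_ne {β : Type*} [DecidableEq β] (S : Finset β) (f : β → β → ℝ) :
    ∑ x ∈ S, ∑ y ∈ S, f x y = ∑ x ∈ S, f x x + ∑ x ∈ S, ∑ y ∈ S, ne1 x y * f x y := by
  rw [← Finset.sum_add_distrib]
  refine Finset.sum_congr rfl fun x hx => ?_
  have h1 : ∑ y ∈ S, f x y = ∑ y ∈ S, ((if x = y then f x y else 0) + ne1 x y * f x y) := by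
    refine Finset.sum_congr rfl fun y _ => ?_
    unfold ne1
    split_ifs <;> ring
  rw [h1, Finset.sum_add_distrib, Finset.sum_ite_eq S x, if_pos hx]

lemma ne1_sq {β : Type*} [DecidableEq β] (a b : β) : ne1 a b * ne1 a b = ne1 a b := by
  unfold ne1; split_ifs <;> norm_num

lemma ne1_nonneg {β : Type*} [DecidableEq β] (a b : β) : 0 ≤ ne1 a b := by
  unfold ne1; split_ifs <;> norm_num

lemma sum_lam (hX : ∀ A ∈ F, A ⊆ X) (hc : ∀ A ∈ F, A.card = ℓ) :
    ∑ x ∈ X, ∑ y ∈ X, ne1 x y * lam F x y = F.card * (ℓ * (ℓ - 1)) := by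
  have h0 := split_ne X (fun x y => lam F x y)
  have h1 : ∑ x ∈ X, lam F x x = F.card * ℓ := by
    simp only [lam_self]
    exact sum_dg hX hc
  have h2 : ∑ x ∈ X, ∑ y ∈ X, lam F x y = F.card * ((ℓ : ℝ) * ℓ) := by
    unfold lam
    have : ∀ x ∈ X, ∑ y ∈ X, ∑ A ∈ F, ind x A * ind y A = ∑ A ∈ F, ind x A * ℓ := by
      intro x _
      rw [Finset.sum_comm]
      refine Finset.sum_congr rfl fun A hA => ?_
      rw [← Finset.mul_sum, sum_ind (hX A hA), hc A hA]
    rw [Finset.sum_congr rfl this, Finset.sum_comm]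
    calc ∑ A ∈ F, ∑ x ∈ X, ind x A * (ℓ : ℝ) = ∑ A ∈ F, ((ℓ : ℝ) * ℓ) := by
          refine Finset.sum_congr rfl fun A hA => ?_
          rw [← Finset.sum_mul, sum_ind (hX A hA), hc A hA]
      _ = _ := by rw [Finset.sum_const, nsmul_eq_mul]
  have h3 : ∑ x ∈ X, ∑ y ∈ X, ne1 x y * lam F x y
      = F.card * ((ℓ : ℝ) * ℓ) - F.card * ℓ := by linarith
  rw [h3]; ring

lemma sum_lam_sq_sub (hX : ∀ A ∈ F, A ⊆ X) :
    ∑ x ∈ X, ∑ y ∈ X, ne1 x y * (lam F x y ^ 2 - lam F x y) =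
      ∑ A ∈ F, ∑ B ∈ F, ne1 A B * (mu A B ^ 2 - mu A B) := by
  have h1 : ∀ x y, lam F x y ^ 2 - lam F x y =
      ∑ A ∈ F, ∑ B ∈ F, ne1 A B * ((ind x A * ind x B) * (ind y A * ind y B)) := by
    intro x y
    have h2 : lam F x y ^ 2 = ∑ A ∈ F, ∑ B ∈ F, (ind x A * ind x B) * (ind y A * ind y B) := by
      rw [sq, lam, Finset.sum_mul_sum]
      refine Finset.sum_congr rfl fun A _ => Finset.sum_congr rfl fun B _ => ?_
      ring
    rw [h2, split_ne F]
    have h3 : ∑ A ∈ F, (ind x A * ind x A) * (ind y A * ind y A) = lam F x y := by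
      refine Finset.sum_congr rfl fun A _ => ?_
      rw [ind_sq, ind_sq]
    rw [h3]; ring
  have h4 : ∀ A ∈ F, ∀ B ∈ F, ∑ x ∈ X, ∑ y ∈ X,
      ne1 x y * ((ind x A * ind x B) * (ind y A * ind y B)) = mu A B ^ 2 - mu A B := by
    intro A hA B hB
    have h5 := split_ne X (fun x y => (ind x A * ind x B) * (ind y A * ind y B))
    have h6 : ∑ x ∈ X, ∑ y ∈ X, (ind x A * ind x B) * (ind y A * ind y B) = mu A B ^ 2 := by
      rw [← Finset.sum_mul_sum, sum_ind_mul (hX A hA), sq]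
    have h7 : ∑ x ∈ X, (ind x A * ind x B) * (ind x A * ind x B) = mu A B := by
      rw [← sum_ind_mul (hX A hA)]
      refine Finset.sum_congr rfl fun x _ => ?_
      rw [ind_inter, ind_sq]
    linarith
  calc ∑ x ∈ X, ∑ y ∈ X, ne1 x y * (lam F x y ^ 2 - lam F x y)
      = ∑ x ∈ X, ∑ y ∈ X, ∑ A ∈ F, ∑ B ∈ F,
          ne1 x y * (ne1 A B * ((ind x A * ind x B) * (ind y A * ind y B))) := by
        refine Finset.sum_congr rfl fun x _ => Finset.sum_congr rfl fun y _ => ?_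
        rw [h1, Finset.mul_sum]
        refine Finset.sum_congr rfl fun A _ => ?_
        rw [Finset.mul_sum]
    _ = ∑ x ∈ X, ∑ A ∈ F, ∑ B ∈ F, ∑ y ∈ X,
          ne1 x y * (ne1 A B * ((ind x A * ind x B) * (ind y A * ind y B))) := by
        refine Finset.sum_congr rfl fun x _ => ?_
        rw [Finset.sum_comm]
        refine Finset.sum_congr rfl fun A _ => ?_
        rw [Finset.sum_comm]
    _ = ∑ A ∈ F, ∑ B ∈ F, ∑ x ∈ X, ∑ y ∈ X,
          ne1 x y * (ne1 A B * ((ind x A * ind x B) * (ind y A * ind y B))) := by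
        rw [Finset.sum_comm]
        refine Finset.sum_congr rfl fun A _ => ?_
        rw [Finset.sum_comm]
    _ = ∑ A ∈ F, ∑ B ∈ F, ne1 A B * (mu A B ^ 2 - mu A B) := by
        refine Finset.sum_congr rfl fun A hA => Finset.sum_congr rfl fun B hB => ?_
        rw [← h4 A hA B hB, Finset.mul_sum]
        refine Finset.sum_congr rfl fun x _ => ?_
        rw [Finset.mul_sum]
        refine Finset.sum_congr rfl fun y _ => ?_
        ring

/-- Main spectral inequality, without roots: `P (P - 2ℓN) ≤ N Q` and `Q² ≤ L P²`. -/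
lemma spectral (hX : ∀ A ∈ F, A ⊆ X) (hc : ∀ A ∈ F, A.card = ℓ)
    (hd : ∀ x ∈ X, dg F x ≤ 2 * ℓ) :
    ∃ Q : ℝ, PP F X ^ 2 ≤ F.card * (2 * ℓ * PP F X + Q) ∧
      Q ^ 2 ≤ (F.card * (ℓ * (ℓ - 1)) + ∑ A ∈ F, ∑ B ∈ F, ne1 A B * (mu A B ^ 2 - mu A B)) *
        PP F X ^ 2 := by
  refine ⟨∑ x ∈ X, ∑ y ∈ X, ne1 x y * (dg F x * dg F y * lam F x y), ?_, ?_⟩
  · have h1 : PP F X ^ 2 ≤ F.card * ∑ A ∈ F, DD F X A ^ 2 := by
      rw [← sum_DD]
      exact sq_sum_le_card_mul_sum_sq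
    have h2 := split_ne X (fun x y => dg F x * dg F y * lam F x y)
    rw [← sum_DD_sq] at h2
    have h3 : ∑ x ∈ X, dg F x * dg F x * lam F x x ≤ 2 * ℓ * PP F X := by
      unfold PP
      rw [Finset.mul_sum]
      refine Finset.sum_le_sum fun x hx => ?_
      rw [lam_self]
      have := hd x hx
      have h0 := dg_nonneg F x
      nlinarith [mul_le_mul_of_nonneg_left this (mul_nonneg h0 h0)]
    refine h1.trans (mul_le_mul_of_nonneg_left ?_ (by positivity))
    rw [h2]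
    linarith
  · have h1 : ∑ x ∈ X, ∑ y ∈ X, ne1 x y * (dg F x * dg F y * lam F x y) =
        ∑ p ∈ X ×ˢ X, (ne1 p.1 p.2 * lam F p.1 p.2) * (dg F p.1 * dg F p.2) := by
      rw [Finset.sum_product]
      refine Finset.sum_congr rfl fun x _ => Finset.sum_congr rfl fun y _ => ?_
      ring
    have h2 : ∑ p ∈ X ×ˢ X, (dg F p.1 * dg F p.2) ^ 2 = PP F X ^ 2 := by
      rw [Finset.sum_product, PP, sq, Finset.sum_mul_sum]
      refine Finset.sum_congr rfl fun x _ => Finset.sum_congr rfl fun y _ => ?_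
      ring
    have h3 : ∑ p ∈ X ×ˢ X, (ne1 p.1 p.2 * lam F p.1 p.2) ^ 2 =
        F.card * (ℓ * (ℓ - 1)) + ∑ A ∈ F, ∑ B ∈ F, ne1 A B * (mu A B ^ 2 - mu A B) := by
      rw [← sum_lam hX hc, ← sum_lam_sq_sub hX, Finset.sum_product, ← Finset.sum_add_distrib]
      refine Finset.sum_congr rfl fun x _ => ?_
      rw [← Finset.sum_add_distrib]
      refine Finset.sum_congr rfl fun y _ => ?_
      have := ne1_sq x y
      calc (ne1 x y * lam F x y) ^ 2 = (ne1 x y * ne1 x y) * lam F x y ^ 2 := by ring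
        _ = _ := by rw [this]; ring
    rw [h1, ← h2, ← h3]
    exact Finset.sum_mul_sq_le_sq_mul_sq _ _ _

/-- indicator of intersection size one -/
noncomputable def i1 (A B : Finset α) : ℝ := if (A ∩ B).card = 1 then 1 else 0

/-- indicator of meeting -/
noncomputable def mt (A B : Finset α) : ℝ := if (A ∩ B).card = 0 then 0 else 1

/-- the number of ordered pairs meeting in one point is at most half of the sum of squared
degrees -/
lemma sum_i1_le (hF : Adm ℓ F) (hX : ∀ A ∈ F, A ⊆ X) :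
    2 * ∑ A ∈ F, ∑ B ∈ F, ne1 A B * i1 A B ≤ PP F X := by
  classical
  have h1 : ∀ A ∈ F, ∀ B ∈ F, ne1 A B * i1 A B ≤
      ∑ x ∈ X, (if A ≠ B ∧ A ∩ B = {x} then (1 : ℝ) else 0) := by
    intro A hA B hB
    have hnn : (0 : ℝ) ≤ ∑ x ∈ X, (if A ≠ B ∧ A ∩ B = {x} then (1 : ℝ) else 0) :=
      Finset.sum_nonneg fun x _ => by split_ifs <;> norm_num
    by_cases hAB : A = B
    · rw [show ne1 A B = 0 by simp [ne1, hAB], zero_mul]; exact hnn
    by_cases hc : (A ∩ B).card = 1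
    · obtain ⟨x, hx⟩ := Finset.card_eq_one.1 hc
      have hxA : x ∈ A := by
        have : x ∈ A ∩ B := by rw [hx]; exact Finset.mem_singleton_self x
        exact (Finset.mem_inter.1 this).1
      have h2 := Finset.single_le_sum
        (f := fun x => (if A ≠ B ∧ A ∩ B = {x} then (1 : ℝ) else 0))
        (fun x _ => by split_ifs <;> norm_num) (hX A hA hxA)
      refine le_trans ?_ h2
      simp only [ne1, i1, if_neg hAB, if_pos hc, if_pos (And.intro hAB hx), mul_one, le_refl]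
    · rw [show i1 A B = 0 by simp [i1, hc], mul_zero]; exact hnn
  have h2 : ∀ x ∈ X, 2 * ∑ A ∈ F, ∑ B ∈ F, (if A ≠ B ∧ A ∩ B = {x} then (1 : ℝ) else 0) ≤
      dg F x ^ 2 := by
    intro x _
    have hm := mantel (F.filter (fun A => x ∈ A)) (fun A B => A ≠ B ∧ A ∩ B = {x})
      (fun A B h => ⟨h.1.symm, by rw [Finset.inter_comm]; exact h.2⟩)
      (fun A hA B hB C hC hAB hAC hBC =>
        hF.no_sf A (Finset.mem_filter.1 hA).1 B (Finset.mem_filter.1 hB).1 C
          (Finset.mem_filter.1 hC).1 hAB.1 hAC.1 hBC.1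
          ⟨hAB.2.trans hAC.2.symm, hAB.2.trans hBC.2.symm⟩)
    rw [← dg_eq] at hm
    refine le_trans (le_of_eq ?_) hm
    congr 1
    rw [← Finset.sum_product', Finset.sum_ite, Finset.sum_const_zero, add_zero,
      Finset.sum_const, nsmul_eq_mul, mul_one]
    congr 2
    ext ⟨A, B⟩
    simp only [Finset.mem_filter, Finset.mem_product]
    constructor
    · rintro ⟨⟨hA, hB⟩, hne, hx⟩
      have : x ∈ A ∩ B := by rw [hx]; exact Finset.mem_singleton_self x
      exact ⟨⟨⟨hA, (Finset.mem_inter.1 this).1⟩, ⟨hB, (Finset.mem_inter.1 this).2⟩⟩, hne, hx⟩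
    · rintro ⟨⟨⟨hA, _⟩, ⟨hB, _⟩⟩, hne, hx⟩
      exact ⟨⟨hA, hB⟩, hne, hx⟩
  calc 2 * ∑ A ∈ F, ∑ B ∈ F, ne1 A B * i1 A B
      ≤ 2 * ∑ A ∈ F, ∑ B ∈ F, ∑ x ∈ X, (if A ≠ B ∧ A ∩ B = {x} then (1 : ℝ) else 0) := by
        refine mul_le_mul_of_nonneg_left ?_ (by norm_num)
        exact Finset.sum_le_sum fun A hA => Finset.sum_le_sum fun B hB => h1 A hA B hB
    _ = ∑ x ∈ X, 2 * ∑ A ∈ F, ∑ B ∈ F, (if A ≠ B ∧ A ∩ B = {x} then (1 : ℝ) else 0) := by
        rw [← Finset.mul_sum]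
        congr 1
        rw [Finset.sum_comm]
        calc ∑ B ∈ F, ∑ A ∈ F, ∑ x ∈ X, (if A ≠ B ∧ A ∩ B = {x} then (1 : ℝ) else 0)
            = ∑ B ∈ F, ∑ x ∈ X, ∑ A ∈ F, (if A ≠ B ∧ A ∩ B = {x} then (1 : ℝ) else 0) :=
              Finset.sum_congr rfl fun B _ => Finset.sum_comm
          _ = ∑ x ∈ X, ∑ B ∈ F, ∑ A ∈ F, (if A ≠ B ∧ A ∩ B = {x} then (1 : ℝ) else 0) :=
              Finset.sum_comm
          _ = _ := Finset.sum_congr rfl fun x _ => Finset.sum_comm
    _ ≤ ∑ x ∈ X, dg F x ^ 2 := Finset.sum_le_sum h2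
    _ = PP F X := rfl

lemma mu_self (hF : Adm ℓ F) {A : Finset α} (hA : A ∈ F) : mu A A = ℓ := by
  unfold mu
  rw [Finset.inter_self, hF.card_eq A hA]

lemma sum_ne1 {β : Type*} [DecidableEq β] (S : Finset β) :
    ∑ x ∈ S, ∑ y ∈ S, ne1 x y = (S.card : ℝ) * (S.card - 1) := by
  have h := split_ne S (fun _ _ => (1 : ℝ))
  simp only [Finset.sum_const, nsmul_eq_mul, mul_one] at h
  linarith

lemma PP_split (hF : Adm ℓ F) (hX : ∀ A ∈ F, A ⊆ X) :
    PP F X = F.card * ℓ + ∑ A ∈ F, ∑ B ∈ F, ne1 A B * mu A B := by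
  rw [PP_eq hX, split_ne F (fun A B => mu A B)]
  congr 1
  rw [Finset.sum_congr rfl fun A hA => mu_self hF hA, Finset.sum_const, nsmul_eq_mul]

/-- meeting pairs in terms of `mu` and `i1` -/
lemma mt_eq (hF : Adm ℓ F) {A B : Finset α} (hA : A ∈ F) (hB : B ∈ F) :
    ne1 A B * mt A B = (ne1 A B * mu A B + ne1 A B * i1 A B) / 2 := by
  by_cases hAB : A = B
  · simp [ne1, hAB]
  · have h2 := hF.inter_le A hA B hB hAB
    unfold ne1 mt mu i1
    rw [if_neg hAB]
    have h3 : (A ∩ B).card = 0 ∨ (A ∩ B).card = 1 ∨ (A ∩ B).card = 2 := by omega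
    rcases h3 with h | h | h <;> rw [h] <;> norm_num

/-- intersections sizes one and two -/
lemma mu_sq (hF : Adm ℓ F) {A B : Finset α} (hA : A ∈ F) (hB : B ∈ F)
    (hi : A ≠ B → (A ∩ B).Nonempty) :
    ne1 A B * (mu A B ^ 2 - mu A B) = 2 * (ne1 A B * mu A B) - 2 * ne1 A B ∧
      ne1 A B * mu A B + ne1 A B * i1 A B = 2 * ne1 A B := by
  by_cases hAB : A = B
  · simp [ne1, hAB]
  · have h2 := hF.inter_le A hA B hB hAB
    have h0 : 0 < (A ∩ B).card := Finset.card_pos.2 (hi hAB)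
    unfold ne1 mu i1
    rw [if_neg hAB]
    have h3 : (A ∩ B).card = 1 ∨ (A ∩ B).card = 2 := by omega
    rcases h3 with h | h <;> rw [h] <;> norm_num

/-- Intersecting families. -/
theorem intersecting_bound (hℓ : 3 ≤ ℓ) (hF : Adm ℓ F)
    (hi : ∀ A ∈ F, ∀ B ∈ F, A ≠ B → (A ∩ B).Nonempty) :
    10 * F.card ≤ 9 * ℓ ^ 2 + 17 * ℓ + 26 := by
  classical
  by_contra hcon
  push Not at hcon
  set X : Finset α := F.biUnion id with hXdef
  have hX : ∀ A ∈ F, A ⊆ X := fun A hA x hx => Finset.mem_biUnion.2 ⟨A, hA, hx⟩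
  have hd : ∀ x ∈ X, dg F x ≤ 2 * ℓ := by
    intro x _
    rw [dg_eq]
    exact_mod_cast hF.deg_le x
  obtain ⟨Q, hQ1, hQ2⟩ := spectral hX hF.card_eq hd
  have hS1 := sum_i1_le hF hX
  have hP := PP_split hF hX
  have hN1 := sum_ne1 F
  set N : ℝ := (F.card : ℝ) with hN
  set l : ℝ := (ℓ : ℝ) with hl
  set P := PP F X with hPdef
  set M := ∑ A ∈ F, ∑ B ∈ F, ne1 A B * mu A B with hM
  set S1 := ∑ A ∈ F, ∑ B ∈ F, ne1 A B * i1 A B with hS1def
  have hT : ∑ A ∈ F, ∑ B ∈ F, ne1 A B * (mu A B ^ 2 - mu A B) = 2 * M - 2 * (N * (N - 1)) := by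
    rw [← hN1, hM, Finset.mul_sum, Finset.mul_sum, ← Finset.sum_sub_distrib]
    refine Finset.sum_congr rfl fun A hA => ?_
    rw [Finset.mul_sum, Finset.mul_sum, ← Finset.sum_sub_distrib]
    exact Finset.sum_congr rfl fun B hB => (mu_sq hF hA hB (hi A hA B hB)).1
  have hMS : M + S1 = 2 * (N * (N - 1)) := by
    rw [← hN1, hM, hS1def, Finset.mul_sum, ← Finset.sum_add_distrib]
    refine Finset.sum_congr rfl fun A hA => ?_
    rw [Finset.mul_sum, ← Finset.sum_add_distrib]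
    exact Finset.sum_congr rfl fun B hB => (mu_sq hF hA hB (hi A hA B hB)).2
  rw [hT] at hQ2
  have hl3 : (3 : ℝ) ≤ l := by rw [hl]; exact_mod_cast hℓ
  have hcon' : 9 * l ^ 2 + 17 * l + 26 < 10 * N := by
    rw [hl, hN]; exact_mod_cast hcon
  have hN4 : 4 * l + 4 ≤ N := by
    have h : 4 * ℓ + 4 ≤ F.card := by
      by_contra h
      have h1 : F.card ≤ 4 * ℓ + 3 := by omega
      have h2 : 9 * ℓ ^ 2 + 17 * ℓ + 26 < 10 * (4 * ℓ + 3) :=
        lt_of_lt_of_le hcon (Nat.mul_le_mul_left 10 h1)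
      have h3 : 3 * ℓ ≤ ℓ * ℓ := Nat.mul_le_mul_right ℓ hℓ
      nlinarith
    rw [hl, hN]
    exact_mod_cast h
  have hNpos : 0 < N := by linarith
  -- the weighted mean degree
  obtain ⟨τ, hτ⟩ : ∃ τ : ℝ, P = N * (N - 1 + l + τ) := by
    refine ⟨P / N - (N - 1 + l), ?_⟩
    field_simp
    ring
  have hM' : M = N * (N - 1 + τ) := by
    have : M = P - N * l := by linarith
    rw [this, hτ]; ring
  have hτ1 : (N - 1 - l) / 3 ≤ τ := by
    have h1 : N * (4 * (N - 1) + 2 * l) ≤ N * (3 * (N - 1 + l + τ)) := by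
      nlinarith
    have h2 := le_of_mul_le_mul_left h1 hNpos
    linarith
  have hp2 : 0 ≤ N - 1 - l + τ := by linarith
  have hPpos : 0 < P := by
    rw [hτ]
    exact mul_pos hNpos (by linarith)
  have hQ : P * (N - 1 - l + τ) ≤ Q := by
    have h1 : N * (P * (N - 1 + l + τ)) ≤ N * (2 * l * P + Q) := by
      calc N * (P * (N - 1 + l + τ)) = P * (N * (N - 1 + l + τ)) := by ring
        _ = P ^ 2 := by rw [← hτ]; ring
        _ ≤ _ := hQ1
    have h2 := le_of_mul_le_mul_left h1 hNpos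
    linarith
  have hQ3 : (P * (N - 1 - l + τ)) ^ 2 ≤ Q ^ 2 :=
    pow_le_pow_left₀ (mul_nonneg hPpos.le hp2) hQ 2
  have hQ4 : (N - 1 - l + τ) ^ 2 ≤ N * (l * (l - 1)) + (2 * M - 2 * (N * (N - 1))) := by
    have h1 : P ^ 2 * (N - 1 - l + τ) ^ 2 ≤
        P ^ 2 * (N * (l * (l - 1)) + (2 * M - 2 * (N * (N - 1)))) := by
      calc P ^ 2 * (N - 1 - l + τ) ^ 2 = (P * (N - 1 - l + τ)) ^ 2 := by ring
        _ ≤ Q ^ 2 := hQ3
        _ ≤ _ := hQ2
        _ = _ := by ring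
    exact le_of_mul_le_mul_left h1 (by positivity)
  rw [hM'] at hQ4
  have h5 : N ^ 2 + (τ - l - 1) ^ 2 ≤ N * (l ^ 2 + l + 2) := by nlinarith
  have h6 : ((N - 4 * l - 4) / 3) ^ 2 ≤ (τ - l - 1) ^ 2 := by
    apply pow_le_pow_left₀
    · linarith
    · linarith
  have h7 : N * (10 * N) ≤ N * (9 * l ^ 2 + 17 * l + 26) := by nlinarith [sq_nonneg (l + 1)]
  have h8 := le_of_mul_le_mul_left h7 hNpos
  linarith

/-- The general upper bound. -/
theorem general_bound (hℓ : 3 ≤ ℓ) (hF : Adm ℓ F) :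
    10 * F.card ≤ 24 * ℓ ^ 2 + 12 * ℓ + 36 := by
  classical
  rcases F.eq_empty_or_nonempty with h0 | hne
  · rw [h0]; simp
  set X : Finset α := F.biUnion id with hXdef
  have hX : ∀ A ∈ F, A ⊆ X := fun A hA x hx => Finset.mem_biUnion.2 ⟨A, hA, hx⟩
  have hd : ∀ x ∈ X, dg F x ≤ 2 * ℓ := by
    intro x _
    rw [dg_eq]
    exact_mod_cast hF.deg_le x
  have hS1 := sum_i1_le hF hX
  have hP := PP_split hF hX
  have hN1 := sum_ne1 F
  have hP2 : PP F X ≤ 2 * ℓ * (F.card * ℓ) := by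
    rw [← sum_dg hX hF.card_eq, Finset.mul_sum]
    unfold PP
    refine Finset.sum_le_sum fun x hx => ?_
    rw [sq]
    exact mul_le_mul_of_nonneg_right (hd x hx) (dg_nonneg F x)
  have hmeet : ∑ A ∈ F, ∑ B ∈ F, ne1 A B * mt A B =
      (∑ A ∈ F, ∑ B ∈ F, ne1 A B * mu A B + ∑ A ∈ F, ∑ B ∈ F, ne1 A B * i1 A B) / 2 := by
    rw [← Finset.sum_add_distrib, Finset.sum_div]
    refine Finset.sum_congr rfl fun A hA => ?_
    rw [← Finset.sum_add_distrib, Finset.sum_div]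
    exact Finset.sum_congr rfl fun B hB => mt_eq hF hA hB
  have hdis : ∀ B ∈ F, 10 * ∑ A ∈ F, ne1 B A * (1 - mt B A) ≤ 9 * (ℓ : ℝ) ^ 2 + 17 * ℓ + 26 := by
    intro B hB
    set G := F.filter (fun A => B ≠ A ∧ (B ∩ A).card = 0) with hG
    have hGs : G ⊆ F := Finset.filter_subset _ _
    have h1 : ∑ A ∈ F, ne1 B A * (1 - mt B A) = (G.card : ℝ) := by
      rw [hG, Finset.card_filter, Nat.cast_sum]
      refine Finset.sum_congr rfl fun A _ => ?_
      unfold ne1 mt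
      by_cases h1 : B = A
      · simp [h1]
      · by_cases h2 : (B ∩ A).card = 0
        · rw [if_neg h1, if_pos h2, if_pos ⟨h1, h2⟩]; norm_num
        · rw [if_neg h1, if_neg h2, if_neg (fun h => h2 h.2)]; norm_num
    have h2 := intersecting_bound hℓ (hF.subset hGs) (by
      intro A hA C hC hAC
      by_contra hemp
      rw [Finset.not_nonempty_iff_eq_empty] at hemp
      obtain ⟨hAF, hBA, hA0⟩ := Finset.mem_filter.1 hA
      obtain ⟨hCF, hBC, hC0⟩ := Finset.mem_filter.1 hC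
      rw [Finset.card_eq_zero] at hA0 hC0
      exact hF.no_sf B hB A hAF C hCF hBA hBC hAC ⟨by rw [hA0, hC0], by rw [hA0, hemp]⟩)
    rw [h1]
    exact_mod_cast h2
  have htot : ∑ A ∈ F, ∑ B ∈ F, ne1 A B * mt A B + ∑ A ∈ F, ∑ B ∈ F, ne1 A B * (1 - mt A B) =
      (F.card : ℝ) * (F.card - 1) := by
    rw [← hN1, ← Finset.sum_add_distrib]
    refine Finset.sum_congr rfl fun A _ => ?_
    rw [← Finset.sum_add_distrib]
    refine Finset.sum_congr rfl fun B _ => ?_
    ring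
  have hdis2 : 10 * ∑ A ∈ F, ∑ B ∈ F, ne1 A B * (1 - mt A B) ≤
      F.card * (9 * (ℓ : ℝ) ^ 2 + 17 * ℓ + 26) := by
    rw [Finset.mul_sum, ← nsmul_eq_mul, ← Finset.sum_const]
    exact Finset.sum_le_sum fun A hA => hdis A hA
  have hNpos : (0 : ℝ) < F.card := by exact_mod_cast hne.card_pos
  have hfin : (F.card : ℝ) * (10 * F.card) ≤ F.card * (24 * (ℓ : ℝ) ^ 2 + 12 * ℓ + 36) := by
    nlinarith
  have := le_of_mul_le_mul_left hfin hNpos
  exact_mod_cast this

end counting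

end Pool.Agent.Work.MP_49280d_co.Fu
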