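import Pool.Agent.Work.MP_49280d_co.Fu.Lower
import Pool.Agent.Work.Shared.PNT.Tauber

/-!
# The asymptotic lower bound
-/

open Finset

namespace Pool.Agent.Work.MP_49280d_co.Fu

/-- Primes in short intervals `((1-δ)x, x]`. -/
lemma prime_gap (δ : ℝ) (hδ : 0 < δ) (hδ1 : δ < 1) :
    ∃ X₀ : ℝ, ∀ x : ℝ, X₀ ≤ x → ∃ q : ℕ, q.Prime ∧ (1 - δ) * x < q ∧ (q : ℝ) ≤ x := by
  obtain ⟨C, hC, hθ⟩ := Pool.Agent.Work.Shared.PNT.theta_sub_self_le 1
  refine ⟨(Real.exp (4 * C / δ) + 2) / (1 - δ), fun x hx => ?_⟩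
  have h1δ : 0 < 1 - δ := by linarith
  rw [div_le_iff₀ h1δ] at hx
  have hexp := Real.exp_pos (4 * C / δ)
  set y : ℝ := (1 - δ) * x with hy
  have hyx : y ≤ x := by
    have hx0 : 0 < x := by
      by_contra h
      push Not at h
      nlinarith
    rw [hy]; nlinarith
  have hy2 : 2 ≤ y := by rw [hy]; linarith
  have hye : Real.exp (4 * C / δ) ≤ y := by rw [hy]; linarith
  have hx2 : 2 ≤ x := by linarith
  have hlog : ∀ z : ℝ, y ≤ z → C * z / (Real.log z) ^ (1 : ℝ) ≤ δ / 4 * z := by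
    intro z hz
    have hz0 : 0 < z := by linarith
    have hlz : 4 * C / δ ≤ Real.log z := by
      rw [Real.le_log_iff_exp_le hz0]; linarith
    have hlz0 : 0 < Real.log z := Real.log_pos (by linarith)
    rw [Real.rpow_one, div_le_iff₀ hlz0]
    have h1 : C ≤ δ / 4 * Real.log z := by
      rw [div_le_iff₀ hδ] at hlz
      linarith
    nlinarith
  have hθx := hθ x hx2
  have hθy := hθ y hy2
  have h1 := (abs_le.1 hθx).1
  have h2 := (abs_le.1 hθy).2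
  have h3 := hlog x hyx
  have h4 := hlog y le_rfl
  have hlt : Chebyshev.theta y < Chebyshev.theta x := by
    have : 0 < x := by linarith
    nlinarith [mul_pos hδ this, mul_pos (mul_pos hδ hδ) this]
  by_contra hcon
  push Not at hcon
  have heq : Chebyshev.theta x = Chebyshev.theta y := by
    unfold Chebyshev.theta
    refine Finset.sum_congr ?_ fun _ _ => rfl
    ext q
    simp only [Finset.mem_filter, Finset.mem_Ioc]
    constructor
    · rintro ⟨⟨h5, h6⟩, h7⟩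
      have h8 : (q : ℝ) ≤ x := (Nat.le_floor_iff (by linarith)).1 h6
      refine ⟨⟨h5, ?_⟩, h7⟩
      rw [Nat.le_floor_iff (by linarith)]
      by_contra h9
      push Not at h9
      exact absurd h8 (not_le.2 (hcon q h7 h9))
    · rintro ⟨⟨h5, h6⟩, h7⟩
      exact ⟨⟨h5, h6.trans (Nat.floor_le_floor hyx)⟩, h7⟩
  linarith

theorem lower_asymptotic (ε : ℝ) (hε : 0 < ε) :
    ∃ L : ℕ, ∀ ℓ : ℕ, L ≤ ℓ → ∃ F : Finset (Finset ℕ), Adm ℓ F ∧
      (1 - ε) * (ℓ : ℝ) ^ 2 ≤ F.card := by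
  set δ : ℝ := min ε 1 / 8 with hδdef
  have hδ : 0 < δ := by
    rw [hδdef]; exact div_pos (lt_min hε one_pos) (by norm_num)
  have hδ8 : δ ≤ 1 / 8 := by
    rw [hδdef]
    exact div_le_div_of_nonneg_right (min_le_right _ _) (by norm_num)
  have hδε : 8 * δ ≤ ε := by
    rw [hδdef]
    have := min_le_left ε 1
    linarith
  obtain ⟨X₀, hX₀⟩ := prime_gap δ hδ (by linarith)
  obtain ⟨L, hL⟩ := exists_nat_ge (max (2 * X₀) (max (36 / δ ^ 2) (8 / δ)))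
  refine ⟨L, fun ℓ hℓ => ?_⟩
  have hℓ' : max (2 * X₀) (max (36 / δ ^ 2) (8 / δ)) ≤ (ℓ : ℝ) := hL.trans (by exact_mod_cast hℓ)
  have hA : 2 * X₀ ≤ (ℓ : ℝ) := (le_max_left _ _).trans hℓ'
  have hB : 36 / δ ^ 2 ≤ (ℓ : ℝ) := (le_max_left _ _).trans ((le_max_right _ _).trans hℓ')
  have hD : 8 / δ ≤ (ℓ : ℝ) := (le_max_right _ _).trans ((le_max_right _ _).trans hℓ')
  rw [div_le_iff₀ hδ] at hD
  rw [div_le_iff₀ (by positivity)] at hB
  have hℓ0 : (0 : ℝ) ≤ ℓ := by positivity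
  have hℓ64 : (64 : ℝ) ≤ ℓ := by nlinarith
  obtain ⟨q, hq, hq1, hq2⟩ := hX₀ ((1 - δ) * ℓ) (by nlinarith)
  have hq3 : (1 - 2 * δ) * ℓ < q := by nlinarith
  have hq48 : (48 : ℝ) < q := by nlinarith
  have hq2' : q ≠ 2 := by
    rintro rfl
    norm_num at hq48
  obtain ⟨h, hh⟩ := hq.odd_of_ne_two hq2'
  have hsq0 : Nat.sqrt q ≠ 0 := by
    intro h0
    rw [Nat.sqrt_eq_zero] at h0
    exact hq.ne_zero h0
  obtain ⟨p, hp, hp1, hp2⟩ := Nat.exists_prime_lt_and_le_two_mul (Nat.sqrt q) hsq0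
  have hph : h ≤ p ^ 2 := by
    have h1 := Nat.lt_succ_sqrt q
    have h2 : (Nat.sqrt q).succ * (Nat.sqrt q).succ ≤ p * p := Nat.mul_le_mul hp1 hp1
    rw [sq]
    omega
  have hpr : 3 * (p : ℝ) ≤ δ * ℓ := by
    have h1 : (p : ℝ) ≤ 2 * (Nat.sqrt q : ℝ) := by exact_mod_cast hp2
    have h2 : ((Nat.sqrt q : ℝ)) ^ 2 ≤ q := by exact_mod_cast Nat.sqrt_le' q
    have h3 : (q : ℝ) ≤ ℓ := by nlinarith
    have h4 : (6 * (Nat.sqrt q : ℝ)) ^ 2 ≤ (δ * ℓ) ^ 2 := by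
      calc (6 * (Nat.sqrt q : ℝ)) ^ 2 = 36 * (Nat.sqrt q : ℝ) ^ 2 := by ring
        _ ≤ 36 * (ℓ : ℝ) := by linarith
        _ ≤ ((ℓ : ℝ) * δ ^ 2) * (ℓ : ℝ) := mul_le_mul_of_nonneg_right hB hℓ0
        _ = _ := by ring
    have h5 : 6 * (Nat.sqrt q : ℝ) ≤ δ * ℓ :=
      le_of_sq_le_sq h4 (by positivity)
    linarith
  have hsize : q + 3 * p ≤ ℓ := by
    have : (q : ℝ) + 3 * p ≤ ℓ := by nlinarith
    exact_mod_cast this
  obtain ⟨F, hF, hFc⟩ := exists_family q p h ℓ hq hp hh hph hsize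
  refine ⟨F, hF, ?_⟩
  have hcard : (F.card : ℝ) = q * (q - 1) := by
    rw [hFc, Nat.cast_mul, Nat.cast_sub hq.one_le, Nat.cast_one]
  rw [hcard]
  have h1 : (1 - 3 * δ) * ℓ ≤ (q : ℝ) - 1 := by nlinarith
  calc (1 - ε) * (ℓ : ℝ) ^ 2 ≤ (1 - 5 * δ) * (ℓ : ℝ) ^ 2 :=
        mul_le_mul_of_nonneg_right (by linarith) (by positivity)
    _ ≤ ((1 - 2 * δ) * ℓ) * ((1 - 3 * δ) * ℓ) := by
        have : 0 ≤ (δ * ℓ) ^ 2 := by positivity
        nlinarith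
    _ ≤ q * (q - 1) := by
        apply mul_le_mul hq3.le h1
        · apply mul_nonneg <;> linarith
        · positivity

end Pool.Agent.Work.MP_49280d_co.Fu
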