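import Mathlib

/-!
# Admissible families
-/

open Finset

namespace Pool.Agent.Work.MP_49280d_co.Fu

/-- Families of `ℓ`-sets with pairwise intersections of size at most `2` and without three distinct
members having equal pairwise intersections. -/
structure Adm {α : Type*} [DecidableEq α] (ℓ : ℕ) (F : Finset (Finset α)) : Prop where
  card_eq : ∀ A ∈ F, A.card = ℓ
  inter_le : ∀ A ∈ F, ∀ B ∈ F, A ≠ B → (A ∩ B).card ≤ 2
  no_sf : ∀ A ∈ F, ∀ B ∈ F, ∀ C ∈ F, A ≠ B → A ≠ C → B ≠ C →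
    ¬ (A ∩ B = A ∩ C ∧ A ∩ B = B ∩ C)

end Pool.Agent.Work.MP_49280d_co.Fu
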