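import Pool.Agent.Work.MP_49280d_co.Fu.Upper

/-!
# Intersecting three-sunflower-free families from Füredi's graph, and gadgets
-/

open Finset

namespace Pool.Agent.Work.MP_49280d_co.Fu

/-- some point lies in exactly two of the three sets -/
def E2 {β : Type*} (A B C : Finset β) : Prop :=
  ∃ x, (x ∈ A ∧ x ∈ B ∧ x ∉ C) ∨ (x ∈ A ∧ x ∉ B ∧ x ∈ C) ∨ (x ∉ A ∧ x ∈ B ∧ x ∈ C)

lemma E2.swap12 {β : Type*} {A B C : Finset β} (h : E2 A B C) : E2 B A C := by
  obtain ⟨x, h⟩ := h; exact ⟨x, by tauto⟩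

lemma E2.swap23 {β : Type*} {A B C : Finset β} (h : E2 A B C) : E2 A C B := by
  obtain ⟨x, h⟩ := h; exact ⟨x, by tauto⟩

/-- indexed intersecting families with pairwise intersections at most two and no sunflower -/
structure Good {ι β : Type*} [DecidableEq β] (S : ι → Finset β) (n : ℕ) : Prop where
  card_le : ∀ i, (S i).card ≤ n
  inter_le : ∀ i j, i ≠ j → (S i ∩ S j).card ≤ 2
  inter_ne : ∀ i j, i ≠ j → ∃ x, x ∈ S i ∧ x ∈ S j
  e2 : ∀ i j k, i ≠ j → i ≠ k → j ≠ k → E2 (S i) (S j) (S k)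

section final

/-- From an indexed family to an admissible family of subsets of `ℕ`. -/
theorem exists_adm {ι β : Type*} [Fintype ι] [DecidableEq ι] [DecidableEq β] [Countable ι]
    [Countable β] (S : ι → Finset β) (ℓ : ℕ) (hℓ : 3 ≤ ℓ)
    (hc : ∀ i, (S i).card ≤ ℓ) (hi : ∀ i j, i ≠ j → (S i ∩ S j).card ≤ 2)
    (he : ∀ i j k, i ≠ j → i ≠ k → j ≠ k → E2 (S i) (S j) (S k)) :
    ∃ F : Finset (Finset ℕ), Adm ℓ F ∧ F.card = Fintype.card ι := by
  classical
  obtain ⟨f, hf⟩ := exists_injective_nat (β ⊕ (ι × ℕ))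
  set T : ι → Finset (β ⊕ (ι × ℕ)) := fun i =>
    (S i).image Sum.inl ∪ (Finset.range (ℓ - (S i).card)).image (fun n => Sum.inr (i, n)) with hT
  have hTl : ∀ i x, Sum.inl x ∈ T i ↔ x ∈ S i := by
    intro i x
    simp [hT]
  have hTr : ∀ i j n, Sum.inr (j, n) ∈ T i → i = j := by
    intro i j n h
    simp only [hT, Finset.mem_union, Finset.mem_image] at h
    rcases h with ⟨x, _, hx⟩ | ⟨k, _, hk⟩
    · cases hx
    · have := Sum.inr.inj hk
      exact (Prod.mk.inj this).1
  have hTc : ∀ i, (T i).card = ℓ := by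
    intro i
    simp only [hT]
    rw [Finset.card_union_of_disjoint, Finset.card_image_of_injective _ Sum.inl_injective,
      Finset.card_image_of_injective, Finset.card_range]
    · have := hc i; omega
    · intro a b hab
      exact (Prod.mk.inj (Sum.inr.inj hab)).2
    · rw [Finset.disjoint_left]
      intro x hx hx'
      obtain ⟨y, _, rfl⟩ := Finset.mem_image.1 hx
      obtain ⟨n, _, hn⟩ := Finset.mem_image.1 hx'
      cases hn
  have hTi : ∀ i j, i ≠ j → (T i ∩ T j).card ≤ 2 := by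
    intro i j hij
    refine le_trans ?_ (hi i j hij)
    rw [← Finset.card_image_of_injective (S i ∩ S j) (Sum.inl_injective (β := ι × ℕ))]
    refine Finset.card_le_card ?_
    intro x hx
    obtain ⟨h1, h2⟩ := Finset.mem_inter.1 hx
    rcases x with x | ⟨k, n⟩
    · exact Finset.mem_image.2 ⟨x, Finset.mem_inter.2 ⟨(hTl i x).1 h1, (hTl j x).1 h2⟩, rfl⟩
    · exact absurd ((hTr i k n h1).trans (hTr j k n h2).symm) hij
  set U : ι → Finset ℕ := fun i => (T i).image f with hU
  have hUi : ∀ i j, U i ∩ U j = (T i ∩ T j).image f := fun i j =>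
    (Finset.image_inter _ _ hf).symm
  have hUinj : Function.Injective U := by
    intro i j hij
    by_contra hne
    have h1 : (U i ∩ U j).card ≤ 2 := by
      rw [hUi, Finset.card_image_of_injective _ hf]; exact hTi i j hne
    rw [← hij, Finset.inter_self] at h1
    have h2 : (U i).card = ℓ := by
      rw [hU]; simp only; rw [Finset.card_image_of_injective _ hf, hTc i]
    omega
  refine ⟨Finset.univ.image U, ⟨?_, ?_, ?_⟩, ?_⟩
  · intro A hA
    obtain ⟨i, _, rfl⟩ := Finset.mem_image.1 hA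
    rw [hU]; simp only; rw [Finset.card_image_of_injective _ hf, hTc i]
  · intro A hA B hB hAB
    obtain ⟨i, _, rfl⟩ := Finset.mem_image.1 hA
    obtain ⟨j, _, rfl⟩ := Finset.mem_image.1 hB
    rw [hUi, Finset.card_image_of_injective _ hf]
    exact hTi i j (fun h => hAB (by rw [h]))
  · intro A hA B hB C hC hAB hAC hBC
    obtain ⟨i, _, rfl⟩ := Finset.mem_image.1 hA
    obtain ⟨j, _, rfl⟩ := Finset.mem_image.1 hB
    obtain ⟨k, _, rfl⟩ := Finset.mem_image.1 hC
    rintro ⟨h1, h2⟩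
    have hij : i ≠ j := fun h => hAB (by rw [h])
    have hik : i ≠ k := fun h => hAC (by rw [h])
    have hjk : j ≠ k := fun h => hBC (by rw [h])
    obtain ⟨x, hx⟩ := he i j k hij hik hjk
    have hm : ∀ i, f (Sum.inl x) ∈ U i ↔ x ∈ S i := by
      intro i
      rw [← hTl i x]
      constructor
      · intro h
        obtain ⟨y, hy, hyx⟩ := Finset.mem_image.1 h
        rw [← hf hyx]; exact hy
      · intro h
        exact Finset.mem_image_of_mem f h
    have e1 : x ∈ S i ∧ x ∈ S j ↔ x ∈ S i ∧ x ∈ S k := by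
      rw [← hm i, ← hm j, ← hm k, ← Finset.mem_inter, ← Finset.mem_inter, h1]
    have e2 : x ∈ S i ∧ x ∈ S j ↔ x ∈ S j ∧ x ∈ S k := by
      rw [← hm i, ← hm j, ← hm k, ← Finset.mem_inter, ← Finset.mem_inter, h2]
    tauto
  · rw [Finset.card_image_of_injective _ hUinj, Finset.card_univ]

/-- Two disjoint copies of an intersecting family. -/
theorem exists_adm_double {ι β : Type*} [Fintype ι] [DecidableEq ι] [DecidableEq β] [Countable ι]
    [Countable β] (S : ι → Finset β) (n ℓ : ℕ) (hℓ : 3 ≤ ℓ) (hn : n ≤ ℓ) (hS : Good S n) :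
    ∃ F : Finset (Finset ℕ), Adm ℓ F ∧ F.card = 2 * Fintype.card ι := by
  classical
  set T : Bool × ι → Finset (Bool × β) := fun p => (S p.2).image (fun x => (p.1, x)) with hT
  have hm : ∀ p x, x ∈ T p ↔ x.1 = p.1 ∧ x.2 ∈ S p.2 := by
    rintro ⟨b, i⟩ ⟨c, x⟩
    simp only [hT, Finset.mem_image, Prod.mk.injEq]
    constructor
    · rintro ⟨y, hy, rfl, rfl⟩; exact ⟨rfl, hy⟩
    · rintro ⟨rfl, hx⟩; exact ⟨x, hx, rfl, rfl⟩
  have hc1 : ∀ p, (T p).card ≤ ℓ := fun p =>
    (Finset.card_image_le.trans (hS.card_le p.2)).trans hn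
  have hi1 : ∀ p q, p ≠ q → (T p ∩ T q).card ≤ 2 := by
    rintro ⟨b, i⟩ ⟨c, j⟩ hne
    by_cases hbc : b = c
    · have hij : i ≠ j := fun h => hne (by rw [hbc, h])
      refine le_trans ?_ (hS.inter_le i j hij)
      rw [← Finset.card_image_of_injective (S i ∩ S j) (Prod.mk_right_injective b)]
      refine Finset.card_le_card ?_
      rintro ⟨d, x⟩ hx
      obtain ⟨h1, h2⟩ := Finset.mem_inter.1 hx
      rw [hm] at h1 h2
      simp only at h1 h2
      exact Finset.mem_image.2 ⟨x, Finset.mem_inter.2 ⟨h1.2, h2.2⟩, by rw [h1.1]⟩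
    · have : T (b, i) ∩ T (c, j) = ∅ := by
        rw [Finset.eq_empty_iff_forall_notMem]
        rintro x hx
        obtain ⟨h1, h2⟩ := Finset.mem_inter.1 hx
        rw [hm] at h1 h2
        exact hbc (h1.1.symm.trans h2.1)
      rw [this]; simp
  have key : ∀ p q r : Bool × ι, p ≠ q → p ≠ r → q ≠ r → p.1 = q.1 → E2 (T p) (T q) (T r) := by
    rintro ⟨b, i⟩ ⟨c, j⟩ ⟨d, k⟩ h1 h2 h3 hbc
    simp only at hbc
    subst hbc
    have hij : i ≠ j := fun h => h1 (by rw [h])
    by_cases hbd : b = d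
    · subst hbd
      have hik : i ≠ k := fun h => h2 (by rw [h])
      have hjk : j ≠ k := fun h => h3 (by rw [h])
      obtain ⟨x, hx⟩ := hS.e2 i j k hij hik hjk
      refine ⟨(b, x), ?_⟩
      simp only [hm, true_and]
      exact hx
    · obtain ⟨x, hx1, hx2⟩ := hS.inter_ne i j hij
      refine ⟨(b, x), Or.inl ?_⟩
      simp only [hm, true_and]
      exact ⟨hx1, hx2, fun h => hbd h.1⟩
  have he1 : ∀ p q r, p ≠ q → p ≠ r → q ≠ r → E2 (T p) (T q) (T r) := by
    intro p q r h1 h2 h3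
    by_cases hpq : p.1 = q.1
    · exact key p q r h1 h2 h3 hpq
    by_cases hpr : p.1 = r.1
    · exact (key p r q h2 h1 h3.symm hpr).swap23
    · have hqr : q.1 = r.1 := by
        revert hpq hpr
        cases p.1 <;> cases q.1 <;> cases r.1 <;> simp
      exact (key q r p h3 h1.symm h2.symm hqr).swap23.swap12
  obtain ⟨F, hF, hFc⟩ := exists_adm T ℓ hℓ hc1 hi1 he1
  refine ⟨F, hF, ?_⟩
  rw [hFc, Fintype.card_prod, Fintype.card_bool]

end final

section gadget

variable {K : Type*} [Field K] [Fintype K] [DecidableEq K]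

/-- the gadget map -/
def gmap (i j : K) (p : Fin 3 × K) : Fin 3 × K × K × K :=
  if p.1 = 0 then (0, p.2, j - p.2 * i, 0)
  else if p.1 = 1 then (1, p.2, j - i ^ 2 - p.2 * i, 0)
  else (2, i, p.2, j * (p.2 - j))

/-- the gadget -/
def gad (p : K × K) : Finset (Fin 3 × K × K × K) := Finset.univ.image (gmap p.1 p.2)

lemma mem_gad0 (i j a v w : K) : (0, a, v, w) ∈ gad (i, j) ↔ v = j - a * i ∧ w = 0 := by
  unfold gad
  simp only [Finset.mem_image, Finset.mem_univ, true_and, Prod.exists]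
  constructor
  · rintro ⟨k, b, h⟩
    unfold gmap at h
    split_ifs at h with h1 h2
    · simp only [Prod.mk.injEq] at h
      obtain ⟨_, rfl, rfl, rfl⟩ := h
      exact ⟨rfl, rfl⟩
    · simp at h
    · simp at h
  · rintro ⟨rfl, rfl⟩
    exact ⟨0, a, by simp [gmap]⟩

lemma mem_gad1 (i j a v w : K) : (1, a, v, w) ∈ gad (i, j) ↔ v = j - i ^ 2 - a * i ∧ w = 0 := by
  unfold gad
  simp only [Finset.mem_image, Finset.mem_univ, true_and, Prod.exists]
  constructor
  · rintro ⟨k, b, h⟩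
    unfold gmap at h
    split_ifs at h with h1 h2
    · simp at h
    · simp only [Prod.mk.injEq] at h
      obtain ⟨_, rfl, rfl, rfl⟩ := h
      exact ⟨rfl, rfl⟩
    · simp at h
  · rintro ⟨rfl, rfl⟩
    exact ⟨1, a, by simp [gmap]⟩

lemma mem_gad2 (i j a v w : K) : (2, a, v, w) ∈ gad (i, j) ↔ a = i ∧ w = j * (v - j) := by
  unfold gad
  simp only [Finset.mem_image, Finset.mem_univ, true_and, Prod.exists]
  constructor
  · rintro ⟨k, b, h⟩
    unfold gmap at h
    split_ifs at h with h1 h2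
    · simp at h
    · simp at h
    · simp only [Prod.mk.injEq] at h
      obtain ⟨_, rfl, rfl, rfl⟩ := h
      exact ⟨rfl, rfl⟩
  · rintro ⟨rfl, rfl⟩
    exact ⟨2, v, by simp [gmap]⟩

theorem gad_good : Good (gad (K := K)) (3 * Fintype.card K) := by
  have hsame : ∀ i j j' : K, j ≠ j' → ∀ i'' j'' : K, (2, i, j + j', j * j') ∈ gad (i'', j'') →
      i = i'' ∧ (j'' = j ∨ j'' = j') := by
    intro i j j' hjj i'' j'' h
    rw [mem_gad2] at h
    refine ⟨h.1, ?_⟩
    have h2 : (j'' - j) * (j'' - j') = 0 := by linear_combination h.2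
    rcases mul_eq_zero.1 h2 with h3 | h3
    · exact Or.inl (sub_eq_zero.1 h3)
    · exact Or.inr (sub_eq_zero.1 h3)
  refine ⟨?_, ?_, ?_, ?_⟩
  · intro p
    unfold gad
    refine Finset.card_image_le.trans ?_
    rw [Finset.card_univ, Fintype.card_prod, Fintype.card_fin]
  · rintro ⟨i, j⟩ ⟨i', j'⟩ hne
    by_cases hi : i = i'
    · subst hi
      have hj : j ≠ j' := fun h => hne (by rw [h])
      have hj' : j - j' ≠ 0 := sub_ne_zero.2 hj
      refine le_trans (Finset.card_le_card (t := {(2, i, j + j', j * j')}) ?_) (by simp)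
      rintro ⟨k, a, v, w⟩ hx
      obtain ⟨h1, h2⟩ := Finset.mem_inter.1 hx
      rw [Finset.mem_singleton]
      fin_cases k
      · simp only [Fin.zero_eta, Fin.mk_one, Fin.reduceFinMk] at h1 h2
        rw [mem_gad0] at h1 h2
        exact absurd (by linear_combination h2.1 - h1.1) hj
      · simp only [Fin.zero_eta, Fin.mk_one, Fin.reduceFinMk] at h1 h2
        rw [mem_gad1] at h1 h2
        exact absurd (by linear_combination h2.1 - h1.1) hj
      · simp only [Fin.zero_eta, Fin.mk_one, Fin.reduceFinMk] at h1 h2 ⊢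
        rw [mem_gad2] at h1 h2
        have hv : v = j + j' := by
          have : (j - j') * (v - (j + j')) = 0 := by linear_combination h2.2 - h1.2
          rcases mul_eq_zero.1 this with h3 | h3
          · exact absurd h3 hj'
          · exact sub_eq_zero.1 h3
        rw [h1.1, h1.2, hv]
        simp only [Prod.mk.injEq, true_and]
        ring
    · have hii : i - i' ≠ 0 := sub_ne_zero.2 hi
      refine le_trans (Finset.card_le_card
        (t := {(0, (j - j') / (i - i'), j - (j - j') / (i - i') * i, 0),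
          (1, (j - j') / (i - i') - (i + i'),
            j - i ^ 2 - ((j - j') / (i - i') - (i + i')) * i, 0)}) ?_) Finset.card_le_two
      rintro ⟨k, a, v, w⟩ hx
      obtain ⟨h1, h2⟩ := Finset.mem_inter.1 hx
      rw [Finset.mem_insert, Finset.mem_singleton]
      fin_cases k
      · simp only [Fin.zero_eta, Fin.mk_one, Fin.reduceFinMk] at h1 h2 ⊢
        rw [mem_gad0] at h1 h2
        left
        have ha : a = (j - j') / (i - i') := by
          rw [eq_div_iff hii]; linear_combination h1.1 - h2.1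
        rw [h1.1, h1.2, ← ha]
      · simp only [Fin.zero_eta, Fin.mk_one, Fin.reduceFinMk] at h1 h2 ⊢
        rw [mem_gad1] at h1 h2
        right
        have ha : a = (j - j') / (i - i') - (i + i') := by
          rw [eq_sub_iff_add_eq, eq_div_iff hii]; linear_combination h1.1 - h2.1
        rw [h1.1, h1.2, ← ha]
      · simp only [Fin.zero_eta, Fin.mk_one, Fin.reduceFinMk] at h1 h2
        rw [mem_gad2] at h1 h2
        exact absurd (h1.1.symm.trans h2.1) hi
  · rintro ⟨i, j⟩ ⟨i', j'⟩ hne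
    by_cases hi : i = i'
    · subst hi
      refine ⟨(2, i, j + j', j * j'), ?_, ?_⟩
      · rw [mem_gad2]; exact ⟨rfl, by ring⟩
      · rw [mem_gad2]; exact ⟨rfl, by ring⟩
    · have hii : i - i' ≠ 0 := sub_ne_zero.2 hi
      refine ⟨(0, (j - j') / (i - i'), j - (j - j') / (i - i') * i, 0), ?_, ?_⟩
      · rw [mem_gad0]; exact ⟨rfl, rfl⟩
      · rw [mem_gad0]
        refine ⟨?_, rfl⟩
        field_simp
        ring
  · -- reduction
    have key : ∀ i j j' : K, j ≠ j' → ∀ r : K × K, (i, j) ≠ r → (i, j') ≠ r →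
        E2 (gad (i, j)) (gad (i, j')) (gad r) := by
      rintro i j j' hj ⟨i'', j''⟩ h1 h2
      refine ⟨(2, i, j + j', j * j'), Or.inl ⟨?_, ?_, ?_⟩⟩
      · rw [mem_gad2]; exact ⟨rfl, by ring⟩
      · rw [mem_gad2]; exact ⟨rfl, by ring⟩
      · intro h
        obtain ⟨h3, h4 | h4⟩ := hsame i j j' hj i'' j'' h
        · exact h1 (by rw [h3, h4])
        · exact h2 (by rw [h3, h4])
    rintro ⟨i1, j1⟩ ⟨i2, j2⟩ ⟨i3, j3⟩ h12 h13 h23
    by_cases e12 : i1 = i2
    · subst e12
      exact key i1 j1 j2 (fun h => h12 (by rw [h])) _ h13 h23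
    by_cases e13 : i1 = i3
    · subst e13
      exact (key i1 j1 j3 (fun h => h13 (by rw [h])) _ h12 h23.symm).swap23
    by_cases e23 : i2 = i3
    · subst e23
      exact (key i2 j2 j3 (fun h => h23 (by rw [h])) _ h12.symm h13.symm).swap23.swap12
    have hii : i1 - i2 ≠ 0 := sub_ne_zero.2 e12
    by_cases hP : (0, (j1 - j2) / (i1 - i2), j1 - (j1 - j2) / (i1 - i2) * i1, 0) ∈ gad (i3, j3)
    · refine ⟨(1, (j1 - j2) / (i1 - i2) - (i1 + i2),
        j1 - i1 ^ 2 - ((j1 - j2) / (i1 - i2) - (i1 + i2)) * i1, 0), Or.inl ⟨?_, ?_, ?_⟩⟩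
      · rw [mem_gad1]; exact ⟨rfl, rfl⟩
      · rw [mem_gad1]
        refine ⟨?_, rfl⟩
        field_simp
        ring
      · intro h
        rw [mem_gad0] at hP
        rw [mem_gad1] at h
        have h3 : (i3 - i1) * (i3 - i2) = 0 := by linear_combination h.1 - hP.1
        rcases mul_eq_zero.1 h3 with h4 | h4
        · exact e13 (sub_eq_zero.1 h4).symm
        · exact e23 (sub_eq_zero.1 h4).symm
    · refine ⟨(0, (j1 - j2) / (i1 - i2), j1 - (j1 - j2) / (i1 - i2) * i1, 0),
        Or.inl ⟨?_, ?_, hP⟩⟩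
      · rw [mem_gad0]; exact ⟨rfl, rfl⟩
      · rw [mem_gad0]
        refine ⟨?_, rfl⟩
        field_simp
        ring

end gadget

section blocks

variable {K : Type*} [Field K] [Fintype K] [DecidableEq K]

/-- the points of the cone: pairs up to sign -/
def phi (x y : K) : K × K × K := (x ^ 2, x * y, y ^ 2)

/-- the block of slope `m` and level `r` -/
def blk (m r : K) : Finset (K × K × K) := Finset.univ.image (fun y : K => phi (r - m * y) y)

lemma mem_blk (m r x y : K) : phi x y ∈ blk m r ↔ (x + m * y) ^ 2 = r ^ 2 := by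
  unfold blk
  simp only [Finset.mem_image, Finset.mem_univ, true_and]
  constructor
  · rintro ⟨z, hz⟩
    simp only [phi, Prod.mk.injEq] at hz
    obtain ⟨h1, h2, h3⟩ := hz
    linear_combination (-1) * h1 - 2 * m * h2 - m ^ 2 * h3
  · intro h
    have h2 : (x + m * y - r) * (x + m * y + r) = 0 := by linear_combination h
    rcases mul_eq_zero.1 h2 with h3 | h3
    · refine ⟨y, ?_⟩
      have : r - m * y = x := by linear_combination (-1) * h3
      rw [this]
    · refine ⟨-y, ?_⟩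
      have : r - m * -y = -x := by linear_combination h3
      rw [this]
      simp only [phi, Prod.mk.injEq]
      exact ⟨by ring, by ring, by ring⟩

/-- every element of a block is a point, normalised -/
lemma exists_of_mem_blk {m r : K} {z : K × K × K} (h : z ∈ blk m r) :
    ∃ x y : K, z = phi x y ∧ x + m * y = r := by
  obtain ⟨y, _, rfl⟩ := Finset.mem_image.1 h
  exact ⟨r - m * y, y, rfl, by ring⟩

lemma card_blk (m r : K) : (blk m r).card ≤ Fintype.card K := by
  unfold blk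
  exact Finset.card_image_le.trans (by rw [Finset.card_univ])

/-- the second coordinate of the common point -/
def cy (m m' r r' : K) : K := (r - r') / (m - m')

/-- the common points of two blocks of different slopes -/
lemma blk_common {m m' : K} (hm : m ≠ m') (r r' : K) :
    phi (r - m * cy m m' r r') (cy m m' r r') ∈ blk m r ∧
      phi (r - m * cy m m' r r') (cy m m' r r') ∈ blk m' r' := by
  have hmm : m - m' ≠ 0 := sub_ne_zero.2 hm
  rw [mem_blk, mem_blk]
  refine ⟨by ring, ?_⟩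
  have h : (m - m') * cy m m' r r' = r - r' := by
    unfold cy; rw [mul_comm]; exact div_mul_cancel₀ _ hmm
  have : r - m * cy m m' r r' + m' * cy m m' r r' = r' := by linear_combination (-1) * h
  rw [this]

lemma blk_inter {m m' : K} (hm : m ≠ m') (r r' : K) : (blk m r ∩ blk m' r').card ≤ 2 := by
  have hmm : m - m' ≠ 0 := sub_ne_zero.2 hm
  refine le_trans (Finset.card_le_card
    (t := {phi (r - m * cy m m' r r') (cy m m' r r'),
      phi (r - m * cy m m' r (-r')) (cy m m' r (-r'))}) ?_) Finset.card_le_two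
  intro z hz
  obtain ⟨h1, h2⟩ := Finset.mem_inter.1 hz
  obtain ⟨x, y, rfl, hxy⟩ := exists_of_mem_blk h1
  rw [mem_blk] at h2
  rw [Finset.mem_insert, Finset.mem_singleton]
  have h3 : (x + m' * y - r') * (x + m' * y + r') = 0 := by linear_combination h2
  rcases mul_eq_zero.1 h3 with h4 | h4
  · left
    have hy : y = cy m m' r r' := by
      unfold cy; rw [eq_div_iff hmm]; linear_combination hxy - h4
    have hx : x = r - m * cy m m' r r' := by rw [← hy]; linear_combination hxy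
    rw [← hx, ← hy]
  · right
    have hy : y = cy m m' r (-r') := by
      unfold cy; rw [eq_div_iff hmm]; linear_combination hxy - h4
    have hx : x = r - m * cy m m' r (-r') := by rw [← hy]; linear_combination hxy
    rw [← hx, ← hy]

lemma blk_disj {m r r' : K} (h : r ^ 2 ≠ r' ^ 2) {z : K × K × K} (h1 : z ∈ blk m r)
    (h2 : z ∈ blk m r') : False := by
  obtain ⟨x, y, rfl, _⟩ := exists_of_mem_blk h1
  rw [mem_blk] at h1 h2
  exact h (h1.symm.trans h2)

lemma blk_e2 (h2 : (2 : K) ≠ 0) {m₁ m₂ m₃ r₁ r₂ r₃ : K} (h12 : m₁ ≠ m₂) (h13 : m₁ ≠ m₃)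
    (h23 : m₂ ≠ m₃) (hr1 : r₁ ≠ 0) (hr2 : r₂ ≠ 0) :
    E2 (blk m₁ r₁) (blk m₂ r₂) (blk m₃ r₃) := by
  have hmm : m₁ - m₂ ≠ 0 := sub_ne_zero.2 h12
  obtain ⟨a1, a2⟩ := blk_common h12 r₁ r₂
  obtain ⟨b1, b2⟩ := blk_common h12 r₁ (-r₂)
  by_cases hP : phi (r₁ - m₁ * cy m₁ m₂ r₁ r₂) (cy m₁ m₂ r₁ r₂) ∈ blk m₃ r₃
  · refine ⟨_, Or.inl ⟨b1, ?_, ?_⟩⟩
    · obtain ⟨x, y, hxy, _⟩ := exists_of_mem_blk b1
      rw [mem_blk] at b2 ⊢
      rw [b2]; ring
    · intro hQ
      rw [mem_blk] at hP hQ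
      have e1 : (m₁ - m₂) * cy m₁ m₂ r₁ r₂ = r₁ - r₂ := by
        unfold cy; rw [mul_comm]; exact div_mul_cancel₀ _ hmm
      have e2 : (m₁ - m₂) * cy m₁ m₂ r₁ (-r₂) = r₁ + r₂ := by
        unfold cy; rw [mul_comm, sub_neg_eq_add]; exact div_mul_cancel₀ _ hmm
      set y := cy m₁ m₂ r₁ r₂ with hy
      set y' := cy m₁ m₂ r₁ (-r₂) with hy'
      have h4 : (m₁ - m₂) ^ 2 * ((r₁ - m₁ * y + m₃ * y) ^ 2 - (r₁ - m₁ * y' + m₃ * y') ^ 2) = 0 := by
        rw [hP, hQ]; ring
      have h5 : (m₁ - m₂) ^ 2 * ((r₁ - m₁ * y + m₃ * y) ^ 2 - (r₁ - m₁ * y' + m₃ * y') ^ 2) =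
          2 * 2 * (m₁ - m₃) * (m₂ - m₃) * r₁ * r₂ * (-1) := by
        have f1 : (m₁ - m₂) * (r₁ - m₁ * y + m₃ * y) =
            (m₁ - m₂) * r₁ - (m₁ - m₃) * (r₁ - r₂) := by linear_combination (-(m₁ - m₃)) * e1
        have f2 : (m₁ - m₂) * (r₁ - m₁ * y' + m₃ * y') =
            (m₁ - m₂) * r₁ - (m₁ - m₃) * (r₁ + r₂) := by linear_combination (-(m₁ - m₃)) * e2
        calc _ = ((m₁ - m₂) * (r₁ - m₁ * y + m₃ * y)) ^ 2 -
              ((m₁ - m₂) * (r₁ - m₁ * y' + m₃ * y')) ^ 2 := by ring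
          _ = _ := by rw [f1, f2]; ring
      rw [h5] at h4
      have h6 : (2 : K) * 2 * (m₁ - m₃) * (m₂ - m₃) * r₁ * r₂ * (-1) ≠ 0 := by
        have g1 := sub_ne_zero.2 h13
        have g2 := sub_ne_zero.2 h23
        have g3 : (-1 : K) ≠ 0 := neg_ne_zero.2 one_ne_zero
        exact mul_ne_zero (mul_ne_zero (mul_ne_zero (mul_ne_zero (mul_ne_zero
          (mul_ne_zero h2 h2) g1) g2) hr1) hr2) g3
      exact h6 h4
  · exact ⟨_, Or.inl ⟨a1, a2, hP⟩⟩

/-- The composed family. -/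
def fam {R G : Type*} [DecidableEq G] (lev : R → K) (g : R → Finset G) (p : K × R) :
    Finset ((K × K × K) ⊕ (K × G)) :=
  (blk p.1 (lev p.2)).image Sum.inl ∪ (g p.2).image (fun x => Sum.inr (p.1, x))

variable {R G : Type*} [DecidableEq G]

lemma mem_fam_inl (lev : R → K) (g : R → Finset G) (m : K) (r : R) (z : K × K × K) :
    Sum.inl z ∈ fam lev g (m, r) ↔ z ∈ blk m (lev r) := by
  unfold fam
  simp

lemma mem_fam_inr (lev : R → K) (g : R → Finset G) (m m' : K) (r : R) (x : G) :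
    Sum.inr (m', x) ∈ fam lev g (m, r) ↔ m' = m ∧ x ∈ g r := by
  unfold fam
  simp only [Finset.mem_union, Finset.mem_image, reduceCtorEq, and_false, exists_false,
    Sum.inr.injEq, Prod.mk.injEq, false_or]
  constructor
  · rintro ⟨y, hy, rfl, rfl⟩; exact ⟨rfl, hy⟩
  · rintro ⟨rfl, hx⟩; exact ⟨x, hx, rfl, rfl⟩

theorem fam_good (h2 : (2 : K) ≠ 0) (lev : R → K) (hlev0 : ∀ r, lev r ≠ 0)
    (hlev : ∀ r r', r ≠ r' → lev r ^ 2 ≠ lev r' ^ 2) (g : R → Finset G) (n : ℕ)
    (hg : Good g n) : Good (fam lev g) (Fintype.card K + n) := by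
  classical
  refine ⟨?_, ?_, ?_, ?_⟩
  · rintro ⟨m, r⟩
    unfold fam
    refine (Finset.card_union_le _ _).trans (Nat.add_le_add ?_ ?_)
    · exact Finset.card_image_le.trans (card_blk _ _)
    · exact Finset.card_image_le.trans (hg.card_le r)
  · rintro ⟨m, r⟩ ⟨m', r'⟩ hne
    by_cases hm : m = m'
    · subst hm
      have hr : r ≠ r' := fun h => hne (by rw [h])
      refine le_trans ?_ (hg.inter_le r r' hr)
      have hinj : Function.Injective (fun x : G => (Sum.inr (m, x) : (K × K × K) ⊕ (K × G))) := by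
        intro a b hab
        exact (Prod.mk.inj (Sum.inr.inj hab)).2
      rw [← Finset.card_image_of_injective (g r ∩ g r') hinj]
      refine Finset.card_le_card ?_
      rintro (z | ⟨m', x⟩) hx
      · obtain ⟨h3, h4⟩ := Finset.mem_inter.1 hx
        rw [mem_fam_inl] at h3 h4
        exact (blk_disj (hlev r r' hr) h3 h4).elim
      · obtain ⟨h3, h4⟩ := Finset.mem_inter.1 hx
        rw [mem_fam_inr] at h3 h4
        exact Finset.mem_image.2 ⟨x, Finset.mem_inter.2 ⟨h3.2, h4.2⟩, by rw [h3.1]⟩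
    · refine le_trans ?_ (blk_inter hm (lev r) (lev r'))
      rw [← Finset.card_image_of_injective (blk m (lev r) ∩ blk m' (lev r'))
        (Sum.inl_injective (β := K × G))]
      refine Finset.card_le_card ?_
      rintro (z | ⟨m'', x⟩) hx
      · obtain ⟨h3, h4⟩ := Finset.mem_inter.1 hx
        rw [mem_fam_inl] at h3 h4
        exact Finset.mem_image.2 ⟨z, Finset.mem_inter.2 ⟨h3, h4⟩, rfl⟩
      · obtain ⟨h3, h4⟩ := Finset.mem_inter.1 hx
        rw [mem_fam_inr] at h3 h4
        exact absurd (h3.1.symm.trans h4.1) hm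
  · rintro ⟨m, r⟩ ⟨m', r'⟩ hne
    by_cases hm : m = m'
    · subst hm
      have hr : r ≠ r' := fun h => hne (by rw [h])
      obtain ⟨x, hx, hx'⟩ := hg.inter_ne r r' hr
      refine ⟨Sum.inr (m, x), ?_, ?_⟩
      · rw [mem_fam_inr]; exact ⟨rfl, hx⟩
      · rw [mem_fam_inr]; exact ⟨rfl, hx'⟩
    · obtain ⟨h3, h4⟩ := blk_common hm (lev r) (lev r')
      refine ⟨Sum.inl (phi (lev r - m * cy m m' (lev r) (lev r')) (cy m m' (lev r) (lev r'))),
        ?_, ?_⟩
      · rw [mem_fam_inl]; exact h3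
      · rw [mem_fam_inl]; exact h4
  · have key : ∀ (m : K) (r r' : R), r ≠ r' → ∀ q : K × R, (m, r) ≠ q → (m, r') ≠ q →
        E2 (fam lev g (m, r)) (fam lev g (m, r')) (fam lev g q) := by
      rintro m r r' hr ⟨m'', r''⟩ hq1 hq2
      by_cases hm : m = m''
      · subst hm
        obtain ⟨x, hx⟩ := hg.e2 r r' r'' hr (fun h => hq1 (by rw [h])) (fun h => hq2 (by rw [h]))
        refine ⟨Sum.inr (m, x), ?_⟩
        simp only [mem_fam_inr, true_and]
        exact hx
      · obtain ⟨x, hx, hx'⟩ := hg.inter_ne r r' hr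
        refine ⟨Sum.inr (m, x), Or.inl ?_⟩
        simp only [mem_fam_inr, true_and]
        exact ⟨hx, hx', fun h => hm h.1⟩
    rintro ⟨m1, r1⟩ ⟨m2, r2⟩ ⟨m3, r3⟩ h12 h13 h23
    by_cases e12 : m1 = m2
    · subst e12
      exact key m1 r1 r2 (fun h => h12 (by rw [h])) _ h13 h23
    by_cases e13 : m1 = m3
    · subst e13
      exact (key m1 r1 r3 (fun h => h13 (by rw [h])) _ h12 h23.symm).swap23
    by_cases e23 : m2 = m3
    · subst e23
      exact (key m2 r2 r3 (fun h => h23 (by rw [h])) _ h12.symm h13.symm).swap23.swap12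
    obtain ⟨x, hx⟩ := blk_e2 h2 e12 e13 e23 (hlev0 r1) (hlev0 r2) (r₃ := lev r3)
    refine ⟨Sum.inl x, ?_⟩
    simp only [mem_fam_inl]
    exact hx

end blocks

/-- restriction of an index set -/
lemma Good.comp {ι κ β : Type*} [DecidableEq β] {S : ι → Finset β} {n : ℕ} (h : Good S n)
    (e : κ ↪ ι) : Good (fun k => S (e k)) n :=
  ⟨fun i => h.card_le _, fun i j hij => h.inter_le _ _ (fun h' => hij (e.injective h')),
    fun i j hij => h.inter_ne _ _ (fun h' => hij (e.injective h')),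
    fun i j k hij hik hjk => h.e2 _ _ _ (fun h' => hij (e.injective h'))
      (fun h' => hik (e.injective h')) (fun h' => hjk (e.injective h'))⟩

/-- The finite version of the lower bound. -/
theorem exists_family (q p h ℓ : ℕ) (hq : q.Prime) (hp : p.Prime) (hq2 : q = 2 * h + 1)
    (hph : h ≤ p ^ 2) (hℓ : q + 3 * p ≤ ℓ) :
    ∃ F : Finset (Finset ℕ), Adm ℓ F ∧ F.card = q * (q - 1) := by
  classical
  haveI : Fact q.Prime := ⟨hq⟩
  haveI : Fact p.Prime := ⟨hp⟩
  have hgood : Good (gad (K := ZMod p)) (3 * p) := by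
    have := gad_good (K := ZMod p)
    rwa [ZMod.card] at this
  have hcard : Fintype.card (Fin h) ≤ Fintype.card (ZMod p × ZMod p) := by
    rw [Fintype.card_fin, Fintype.card_prod, ZMod.card, ← sq]; exact hph
  obtain ⟨e⟩ := Function.Embedding.nonempty_of_card_le hcard
  have hg := hgood.comp e
  have hh : 0 < h := by
    rcases Nat.eq_zero_or_pos h with h0 | h0
    · rw [h0] at hq2; rw [hq2] at hq; exact absurd hq (by norm_num)
    · exact h0
  set lev : Fin h → ZMod q := fun k => ((k.1 + 1 : ℕ) : ZMod q) with hlev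
  have h0 : ∀ k, lev k ≠ 0 := by
    intro k hk
    have hk' : ((k.1 + 1 : ℕ) : ZMod q) = 0 := hk
    rw [ZMod.natCast_eq_zero_iff] at hk'
    have := Nat.le_of_dvd (by omega) hk'
    have := k.2
    omega
  have h2 : (2 : ZMod q) ≠ 0 := by
    intro hk
    have hk' : ((2 : ℕ) : ZMod q) = 0 := by exact_mod_cast hk
    rw [ZMod.natCast_eq_zero_iff] at hk'
    have := Nat.le_of_dvd (by omega) hk'
    omega
  have h1 : ∀ k k', k ≠ k' → lev k ^ 2 ≠ lev k' ^ 2 := by
    intro k k' hne hk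
    have h3 : (lev k - lev k') * (lev k + lev k') = 0 := by linear_combination hk
    have hkk := k.2
    have hkk' := k'.2
    rcases mul_eq_zero.1 h3 with h4 | h4
    · have h5 : ((k.1 + 1 : ℕ) : ZMod q) = ((k'.1 + 1 : ℕ) : ZMod q) := sub_eq_zero.1 h4
      rw [ZMod.natCast_eq_natCast_iff, Nat.ModEq, Nat.mod_eq_of_lt (by omega),
        Nat.mod_eq_of_lt (by omega)] at h5
      exact hne (Fin.ext (by omega))
    · have h5 : ((k.1 + 1 + (k'.1 + 1) : ℕ) : ZMod q) = 0 := by
        rw [← h4, hlev]; push_cast; ring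
      rw [ZMod.natCast_eq_zero_iff] at h5
      have := Nat.le_of_dvd (by omega) h5
      omega
  have hfin := fam_good h2 lev h0 h1 _ (3 * p) hg
  rw [ZMod.card] at hfin
  have hℓ3 : 3 ≤ ℓ := by have := hp.two_le; omega
  obtain ⟨F, hF, hFc⟩ := exists_adm_double _ _ ℓ hℓ3 hℓ hfin
  refine ⟨F, hF, ?_⟩
  rw [hFc, Fintype.card_prod, ZMod.card, Fintype.card_fin]
  have : q - 1 = 2 * h := by omega
  rw [this]; ring


end Pool.Agent.Work.MP_49280d_co.Fu
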